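import Mathlib
import Pool.Agent.Y295.HS.G

/-!
# Radial limits of Hadamard gap series: Hausdorff dimension in every arc (MP_bdd694_an)

Stronger form of `RadialLimit`: every function with Hadamard gaps has radial limits (finite or
infinite) on a set of full Hausdorff dimension `1` in every arc; if the coefficients are not
summable, the growth along these radii is maximal up to the exponent.
-/

open Filter Topology Set MeasureTheory
open scoped ENNReal NNReal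

namespace Pool.Agent.Results.MP_bdd694_an.RadialDimension

open Pool.Agent.Helper95.Hada Pool.Agent.Y295.HR Pool.Agent.Y295.HS

/-- `f` is the sum in the unit disc of the convergent power series `∑ a n * z ^ lam n` with
strictly increasing exponents and Hadamard gaps `lam (n+1) / lam n ≥ q > 1` (`lam n ≥ 1`). -/
structure IsHadamard (q : ℝ) (lam : ℕ → ℕ) (a : ℕ → ℂ) (f : ℂ → ℂ) : Prop where
  one_lt_q : 1 < q
  mono : StrictMono lam
  gap : ∀ n, 1 ≤ lam n → q * (lam n : ℝ) ≤ (lam (n + 1) : ℝ)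
  sum : ∀ z : ℂ, ‖z‖ < 1 → HasSum (fun n => a n * z ^ lam n) (f z)

/-- `f` has a radial limit at `exp (iθ)`: the limit of `f (r exp (iθ))` as `r → 1-` exists in the
extended plane, finite or infinite. -/
def HasRadialLimit (f : ℂ → ℂ) (θ : ℝ) : Prop :=
  ∃ w : OnePoint ℂ, Tendsto (fun r : ℝ => ((f (r * Complex.exp (θ * Complex.I)) : ℂ) : OnePoint ℂ))
    (𝓝[<] 1) (𝓝 w)

theorem norm_pow_exp (s : ℝ) (c : ℂ) (m : ℕ) (z : ℂ) (hz : ‖z‖ = Real.exp (-s)) :
    ‖c * z ^ m‖ = ‖c‖ * Real.exp (-((m : ℝ) * s)) := by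
  rw [norm_mul, norm_pow, hz, ← Real.exp_nat_mul]
  congr 2
  ring

/-- The sum of the absolute values of the terms of the power series on the circle of radius `r`. -/
noncomputable def majorant (lam : ℕ → ℕ) (a : ℕ → ℂ) (r : ℝ) : ℝ := ∑' n, ‖a n‖ * r ^ lam n

/-- The sum of the absolute values of the terms of `∑ a k exp (lam k (-s + iθ))`. -/
noncomputable def majorantD (lam : ℕ → ℝ) (a : ℕ → ℂ) (s : ℝ) : ℝ :=
  ∑' k, ‖a k‖ * Real.exp (-(lam k * s))

/-- series with real frequencies -/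
theorem partC (q : ℝ) (lam : ℕ → ℝ) (a : ℕ → ℂ) (hq : 1 < q) (hpos : ∀ k, 0 < lam k)
    (hgap : ∀ k, q * lam k ≤ lam (k + 1))
    (hsum : ∀ s : ℝ, 0 < s → Summable (fun k => ‖a k‖ * Real.exp (-(lam k * s))))
    (hA : ¬ Summable (fun k => ‖a k‖)) :
    Tendsto (majorantD lam a) (𝓝[>] 0) atTop ∧ ∀ α β σ γ : ℝ, α < β → σ < 1 → γ < 1 →
    ∃ K : Set ℝ, K ⊆ Ioo α β ∧ IsCompact K ∧ 0 < Measure.hausdorffMeasure σ K ∧
      ∃ s₀ : ℝ, 0 < s₀ ∧ ∀ s, 0 < s → s < s₀ → ∀ θ ∈ K,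
        majorantD lam a s ^ γ ≤ ‖∑' k, a k * Complex.exp (lam k * (-s + θ * Complex.I))‖ := by
  set S : Ser :=
    { q := q
      lam := lam
      a := a
      one_lt_q := hq
      lam_pos := hpos
      ratio := hgap
      summ := hsum } with hS
  have hM : Tendsto S.M (𝓝[>] 0) atTop := by
    rw [tendsto_atTop]
    intro B
    rw [not_summable_iff_tendsto_nat_atTop_of_nonneg (fun _ => norm_nonneg _)] at hA
    obtain ⟨K, hK⟩ := (tendsto_atTop.1 hA (B + 1)).exists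
    have h1 : Tendsto (fun s : ℝ => ∑ k ∈ Finset.range K, S.x k s) (𝓝 0)
        (𝓝 (∑ k ∈ Finset.range K, S.x k 0)) := by
      apply Continuous.tendsto
      unfold Ser.x
      fun_prop
    have h2 : ∑ k ∈ Finset.range K, S.x k 0 = ∑ k ∈ Finset.range K, ‖a k‖ := by
      apply Finset.sum_congr rfl
      intro k _
      simp [Ser.x, hS]
    rw [h2] at h1
    have h3 : ∀ᶠ s in 𝓝[>] (0 : ℝ), B < ∑ k ∈ Finset.range K, S.x k s :=
      (h1.mono_left nhdsWithin_le_nhds).eventually_const_lt (by linarith)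
    filter_upwards [h3, self_mem_nhdsWithin] with s hs hs0
    refine hs.le.trans ?_
    unfold Ser.M
    exact (S.summ s hs0).sum_le_tsum _ (fun i _ => mul_nonneg (norm_nonneg _) (Real.exp_pos _).le)
  have hMM : majorantD lam a = S.M := rfl
  rw [hMM]
  refine ⟨hM, fun α β σ γ hαβ hσ hγ => ?_⟩
  obtain ⟨K, hK1, hK2, hK3, s₀, hs₀, h⟩ := ser_richS hσ hγ S hM hαβ
  refine ⟨K, hK1, hK2, pos_iff_ne_zero.2 hK3, s₀, hs₀, fun s hs hss θ hθ => ?_⟩
  have h1 := h s hs hss θ hθ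
  have h2 : S.F s θ = ∑' k, a k * Complex.exp (lam k * (-s + θ * Complex.I)) := by
    unfold Ser.F Ser.G
    refine tsum_congr fun k => ?_
    congr 3
    apply Complex.ext <;> simp
  rwa [h2] at h1

/-- an elementary inequality -/
theorem shift_pow (A γ γ' : ℝ) (hA : 0 ≤ A) (hγ : 0 ≤ γ) (hγγ : γ < γ') :
    ∃ X₀ : ℝ, 0 < X₀ ∧ ∀ X, X₀ ≤ X → (A + X) ^ γ + A ≤ X ^ γ' := by
  have h1 : ∀ᶠ X : ℝ in atTop, 2 * 2 ^ γ ≤ X ^ (γ' - γ) :=
    (tendsto_rpow_atTop (by linarith)).eventually_ge_atTop _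
  have h2 : ∀ᶠ X : ℝ in atTop, 2 * A ≤ X ^ γ' :=
    (tendsto_rpow_atTop (by linarith)).eventually_ge_atTop _
  obtain ⟨X₁, hX₁⟩ := eventually_atTop.1 (h1.and h2)
  refine ⟨max X₁ (max A 1), lt_of_lt_of_le one_pos ((le_max_right _ _).trans (le_max_right _ _)),
    fun X hX => ?_⟩
  obtain ⟨h3, h4⟩ := hX₁ X ((le_max_left _ _).trans hX)
  have h5 : A ≤ X := ((le_max_left _ _).trans (le_max_right _ _)).trans hX
  have h6 : 1 ≤ X := ((le_max_right _ _).trans (le_max_right _ _)).trans hX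
  have h7 : (A + X) ^ γ ≤ (2 * X) ^ γ := Real.rpow_le_rpow (by linarith) (by linarith) hγ
  have h8 : (2 * X) ^ γ = 2 ^ γ * X ^ γ := Real.mul_rpow (by norm_num) (by linarith)
  have h9 : X ^ γ' = X ^ γ * X ^ (γ' - γ) := by
    rw [← Real.rpow_add (by linarith)]
    congr 1
    ring
  have h10 : 0 < X ^ γ := Real.rpow_pos_of_pos (by linarith) _
  have h11 : X ^ γ * (2 * 2 ^ γ) ≤ X ^ γ' := by
    rw [h9]
    exact mul_le_mul_of_nonneg_left h3 h10.le
  have h12 : (A + X) ^ γ ≤ X ^ γ' / 2 := by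
    rw [h8] at h7
    linarith
  linarith

/-- power series with non-summable coefficients -/
theorem partB (q : ℝ) (lam : ℕ → ℕ) (a : ℕ → ℂ) (f : ℂ → ℂ) (hf : IsHadamard q lam a f)
    (hA : ¬ Summable (fun n => ‖a n‖)) :
    Tendsto (majorant lam a) (𝓝[<] 1) atTop ∧ ∀ α β σ γ : ℝ, α < β → σ < 1 → γ < 1 →
    ∃ K : Set ℝ, K ⊆ Ioo α β ∧ IsCompact K ∧ 0 < Measure.hausdorffMeasure σ K ∧
      ∃ r₀ : ℝ, r₀ < 1 ∧ ∀ r, r₀ < r → r < 1 → ∀ θ ∈ K,
        majorant lam a r ^ γ ≤ ‖f (r * Complex.exp (θ * Complex.I))‖ := by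
  obtain ⟨hq, hmono, hgap, hsum⟩ := hf
  have hlam1 : ∀ k, 1 ≤ lam (k + 1) := fun k => by
    have : lam k < lam (k + 1) := hmono (Nat.lt_succ_self k)
    omega
  have hsm : ∀ s : ℝ, 0 < s → Summable (fun n => ‖a n‖ * Real.exp (-((lam n : ℝ) * s))) := by
    intro s hs
    have hz : ‖((Real.exp (-s) : ℝ) : ℂ)‖ = Real.exp (-s) := by
      rw [Complex.norm_real, Real.norm_eq_abs, abs_of_pos (Real.exp_pos _)]
    have h1 := (hsum ((Real.exp (-s) : ℝ) : ℂ) (by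
      rw [hz, Real.exp_lt_one_iff]; linarith)).summable.norm
    refine h1.congr fun n => ?_
    exact norm_pow_exp s (a n) (lam n) _ hz
  have hnot : ¬ Summable (fun k => ‖a (k + 1)‖) := fun h => hA ((summable_nat_add_iff 1).1 h)
  obtain ⟨hM, hK⟩ := partC q (fun k => (lam (k + 1) : ℝ)) (fun k => a (k + 1)) hq
    (fun k => by have := hlam1 k; positivity) (fun k => hgap (k + 1) (hlam1 k))
    (fun s hs => (summable_nat_add_iff 1).2 (hsm s hs)) hnot
  set MD : ℝ → ℝ := majorantD (fun k => (lam (k + 1) : ℝ)) (fun k => a (k + 1)) with hMD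
  -- the two majorants
  have hmaj : ∀ r : ℝ, 0 < r → r < 1 →
      majorant lam a r = ‖a 0‖ * r ^ lam 0 + MD (-Real.log r) := by
    intro r hr hr1
    have e : ∀ n, ‖a n‖ * r ^ lam n = ‖a n‖ * Real.exp (-((lam n : ℝ) * (-Real.log r))) := by
      intro n
      congr 1
      rw [mul_neg, neg_neg, Real.exp_nat_mul, Real.exp_log hr]
    have hs1 : 0 < -Real.log r := by
      have := Real.log_neg hr hr1
      linarith
    have h1 : Summable (fun n => ‖a n‖ * r ^ lam n) := (hsm _ hs1).congr fun n => (e n).symm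
    unfold majorant
    rw [h1.tsum_eq_zero_add]
    congr 1
    rw [hMD]
    unfold majorantD
    exact tsum_congr fun k => e (k + 1)
  have hlog : Tendsto (fun r : ℝ => -Real.log r) (𝓝[<] 1) (𝓝[>] 0) := by
    rw [tendsto_nhdsWithin_iff]
    constructor
    · have h1 : Tendsto (fun r : ℝ => -Real.log r) (𝓝 1) (𝓝 (-Real.log 1)) :=
        (Real.continuousAt_log one_ne_zero).neg
      rw [Real.log_one, neg_zero] at h1
      exact h1.mono_left nhdsWithin_le_nhds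
    · have h4 : ∀ᶠ r : ℝ in 𝓝[<] 1, r ∈ Set.Ioo (0 : ℝ) 1 :=
        Ioo_mem_nhdsLT (by norm_num)
      filter_upwards [h4] with r hr
      have := Real.log_neg hr.1 hr.2
      simp only [Set.mem_Ioi]
      linarith
  have hMlog : Tendsto (fun r : ℝ => MD (-Real.log r)) (𝓝[<] 1) atTop := hM.comp hlog
  have h01 : ∀ᶠ r : ℝ in 𝓝[<] 1, r ∈ Set.Ioo (0 : ℝ) 1 := Ioo_mem_nhdsLT (by norm_num)
  refine ⟨?_, fun α β σ γ hαβ hσ hγ => ?_⟩
  · refine tendsto_atTop_mono' _ ?_ hMlog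
    filter_upwards [h01] with r hr
    rw [hmaj r hr.1 hr.2]
    have : 0 ≤ ‖a 0‖ * r ^ lam 0 := mul_nonneg (norm_nonneg _) (pow_nonneg hr.1.le _)
    linarith
  -- the exponents
  set g0 : ℝ := max γ 0 with hg0
  have hg00 : 0 ≤ g0 := le_max_right _ _
  have hg01 : g0 < 1 := max_lt hγ one_pos
  set g1 : ℝ := (1 + g0) / 2 with hg1
  have hg10 : g0 < g1 := by rw [hg1]; linarith
  have hg11 : g1 < 1 := by rw [hg1]; linarith
  obtain ⟨K, hK1, hK2, hK3, s₀, hs₀, h⟩ := hK α β σ g1 hαβ hσ hg11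
  obtain ⟨X₀, hX₀, hX⟩ := shift_pow ‖a 0‖ g0 g1 (norm_nonneg _) hg00 hg10
  -- radii near one
  have hev : ∀ᶠ r : ℝ in 𝓝[<] 1, r ∈ Set.Ioo (0 : ℝ) 1 ∧ max X₀ 1 ≤ MD (-Real.log r) ∧
      Real.exp (-s₀) < r := by
    have h2 : ∀ᶠ r : ℝ in 𝓝[<] 1, r ∈ Set.Ioo (Real.exp (-s₀)) 1 :=
      Ioo_mem_nhdsLT (Real.exp_lt_one_iff.2 (by linarith))
    filter_upwards [h01, hMlog.eventually_ge_atTop (max X₀ 1), h2] with r h3 h4 h5
    exact ⟨h3, h4, h5.1⟩
  obtain ⟨r₀, hr₀, hsub⟩ := mem_nhdsLT_iff_exists_Ioo_subset.1 hev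
  refine ⟨K, hK1, hK2, hK3, r₀, hr₀, fun r hrr hr1 θ hθ => ?_⟩
  obtain ⟨⟨hr, -⟩, hX1, hexp⟩ := hsub ⟨hrr, hr1⟩
  have hX2 : X₀ ≤ MD (-Real.log r) := (le_max_left _ _).trans hX1
  have hX3 : 1 ≤ MD (-Real.log r) := (le_max_right _ _).trans hX1
  set s : ℝ := -Real.log r with hs
  have hs1 : 0 < s := by
    have := Real.log_neg hr hr1
    rw [hs]; linarith
  have hs2 : s < s₀ := by
    have h1 := Real.log_lt_log (Real.exp_pos _) hexp
    rw [Real.log_exp] at h1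
    rw [hs]; linarith
  have h1 := h s hs1 hs2 θ hθ
  set z : ℂ := (r : ℂ) * Complex.exp (θ * Complex.I) with hzdef
  have hz : z = Complex.exp (-s + θ * Complex.I) := by
    have h2 : ((-s : ℝ) : ℂ) = ((Real.log r : ℝ) : ℂ) := by rw [hs, neg_neg]
    rw [Complex.exp_add, ← Complex.ofReal_neg, h2, ← Complex.ofReal_exp, Real.exp_log hr]
  have hnz : ‖z‖ = r := by
    rw [hzdef, norm_mul, Complex.norm_exp_ofReal_mul_I, mul_one, Complex.norm_real,
      Real.norm_eq_abs, abs_of_pos hr]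
  have hs3 := hsum z (by rw [hnz]; exact hr1)
  have h5 : f z = a 0 * z ^ lam 0 +
      ∑' k, a (k + 1) * Complex.exp (((lam (k + 1) : ℝ) : ℂ) * (-s + θ * Complex.I)) := by
    rw [← hs3.tsum_eq, hs3.summable.tsum_eq_zero_add]
    congr 1
    refine tsum_congr fun k => ?_
    congr 1
    rw [hz, ← Complex.exp_nat_mul]
    simp
  have hrl : r ^ lam 0 ≤ 1 := pow_le_one₀ hr.le hr1.le
  have h6 : ‖a 0 * z ^ lam 0‖ ≤ ‖a 0‖ := by
    rw [norm_mul, norm_pow, hnz]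
    have h5 := norm_nonneg (a 0)
    nlinarith
  rw [h5]
  have h7 := norm_sub_norm_le
    (∑' k, a (k + 1) * Complex.exp (((lam (k + 1) : ℝ) : ℂ) * (-s + θ * Complex.I)))
    (-(a 0 * z ^ lam 0))
  rw [norm_neg, sub_neg_eq_add, add_comm _ (a 0 * z ^ lam 0)] at h7
  have h8 := hX (MD s) hX2
  have h9 : majorant lam a r ≤ ‖a 0‖ + MD s := by
    rw [hmaj r hr hr1]
    have h5 := norm_nonneg (a 0)
    nlinarith
  have h10 : 1 ≤ majorant lam a r := by
    rw [hmaj r hr hr1]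
    have : 0 ≤ ‖a 0‖ * r ^ lam 0 := mul_nonneg (norm_nonneg _) (pow_nonneg hr.le _)
    linarith
  have h11 : majorant lam a r ^ γ ≤ majorant lam a r ^ g0 :=
    Real.rpow_le_rpow_of_exponent_le h10 (le_max_left _ _)
  have h12 : majorant lam a r ^ g0 ≤ (‖a 0‖ + MD s) ^ g0 :=
    Real.rpow_le_rpow (by linarith) h9 hg00
  linarith

/-- growth gives `|f| → ∞` along the radius -/
theorem tendsto_of_growth (lam : ℕ → ℕ) (a : ℕ → ℂ) (f : ℂ → ℂ) (θ γ : ℝ) (hγ : 0 < γ)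
    (hM : Tendsto (majorant lam a) (𝓝[<] 1) atTop)
    (h : ∀ᶠ r : ℝ in 𝓝[<] 1,
      majorant lam a r ^ γ ≤ ‖f (r * Complex.exp (θ * Complex.I))‖) :
    Tendsto (fun r : ℝ => ‖f (r * Complex.exp (θ * Complex.I))‖) (𝓝[<] 1) atTop :=
  tendsto_atTop_mono' _ h ((tendsto_rpow_atTop hγ).comp hM)

/-- `|f| → ∞` along the radius gives the radial limit `∞` -/
theorem radial_of_tendsto (f : ℂ → ℂ) (θ : ℝ)
    (h1 : Tendsto (fun r : ℝ => ‖f (r * Complex.exp (θ * Complex.I))‖) (𝓝[<] 1) atTop) :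
    HasRadialLimit f θ := by
  refine ⟨OnePoint.infty, ?_⟩
  have h2 : Tendsto (fun r : ℝ => f (r * Complex.exp (θ * Complex.I))) (𝓝[<] 1)
      (Bornology.cobounded ℂ) := tendsto_norm_atTop_iff_cobounded.1 h1
  rw [Metric.cobounded_eq_cocompact, ← Filter.coclosedCompact_eq_cocompact] at h2
  have h3 : Tendsto ((↑) : ℂ → OnePoint ℂ) (Filter.coclosedCompact ℂ) (𝓝 OnePoint.infty) :=
    OnePoint.tendsto_coe_infty
  exact h3.comp h2

/-- the absolutely convergent case -/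
theorem radial_of_summable (q : ℝ) (lam : ℕ → ℕ) (a : ℕ → ℂ) (f : ℂ → ℂ)
    (hf : IsHadamard q lam a f) (hA : Summable (fun n => ‖a n‖)) (θ : ℝ) :
    HasRadialLimit f θ := by
  set u : ℂ := Complex.exp (θ * Complex.I) with hu
  have hu1 : ‖u‖ = 1 := by rw [hu, Complex.norm_exp_ofReal_mul_I]
  refine ⟨((∑' n, a n * u ^ lam n : ℂ) : OnePoint ℂ), ?_⟩
  have h1 : Tendsto (fun r : ℝ => f (r * u)) (𝓝[<] 1) (𝓝 (∑' n, a n * u ^ lam n)) := by
    have h2 : Tendsto (fun r : ℝ => ∑' n, a n * ((r : ℂ) * u) ^ lam n) (𝓝[<] 1)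
        (𝓝 (∑' n, a n * u ^ lam n)) := by
      refine tendsto_tsum_of_dominated_convergence (bound := fun n => ‖a n‖) hA ?_ ?_
      · intro n
        have h3 : Tendsto (fun r : ℝ => a n * ((r : ℂ) * u) ^ lam n) (𝓝 1)
            (𝓝 (a n * (((1 : ℝ) : ℂ) * u) ^ lam n)) := by
          apply Continuous.tendsto
          fun_prop
        simp only [Complex.ofReal_one, one_mul] at h3
        exact h3.mono_left nhdsWithin_le_nhds
      · have h4 : ∀ᶠ r : ℝ in 𝓝[<] 1, r ∈ Set.Ioo (0 : ℝ) 1 :=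
          Ioo_mem_nhdsLT (by norm_num)
        filter_upwards [h4] with r hr n
        rw [norm_mul, norm_pow, norm_mul, hu1, mul_one, Complex.norm_real, Real.norm_eq_abs,
          abs_of_pos hr.1]
        have : r ^ lam n ≤ 1 := pow_le_one₀ hr.1.le hr.2.le
        have h5 := norm_nonneg (a n)
        nlinarith
    refine h2.congr' ?_
    have h4 : ∀ᶠ r : ℝ in 𝓝[<] 1, r ∈ Set.Ioo (0 : ℝ) 1 :=
      Ioo_mem_nhdsLT (by norm_num)
    filter_upwards [h4] with r hr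
    refine (hf.sum ((r : ℂ) * u) ?_).tsum_eq
    rw [norm_mul, hu1, mul_one, Complex.norm_real, Real.norm_eq_abs, abs_of_pos hr.1]; exact hr.2
  exact (OnePoint.continuous_coe.tendsto _).comp h1

/-- a subset of the line has Hausdorff dimension one if for every `σ < 1` it contains a set of
positive `σ`-dimensional measure -/
theorem dimH_eq_one (E : Set ℝ)
    (h : ∀ σ : ℝ, σ < 1 → ∃ K : Set ℝ, K ⊆ E ∧ 0 < Measure.hausdorffMeasure σ K) :
    dimH E = 1 := by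
  apply le_antisymm
  · have h1 : dimH E ≤ dimH (univ : Set ℝ) := dimH_mono (subset_univ E)
    rw [Real.dimH_univ] at h1
    exact h1
  · refine le_of_forall_lt fun c hc => ?_
    obtain ⟨d, hcd, hd1⟩ := exists_between hc
    have hdtop : d ≠ ⊤ := ne_top_of_lt hd1
    lift d to ℝ≥0 using hdtop
    have hd1' : (d : ℝ) < 1 := by exact_mod_cast hd1
    obtain ⟨K, hK1, hK2⟩ := h d hd1'
    exact hcd.trans_le ((le_dimH_of_hausdorffMeasure_ne_zero hK2.ne').trans (dimH_mono hK1))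

/-- continuous extension to the closed disc in the absolutely convergent case -/
theorem extends_of_summable (q : ℝ) (lam : ℕ → ℕ) (a : ℕ → ℂ) (f : ℂ → ℂ)
    (hf : IsHadamard q lam a f) (hA : Summable (fun n => ‖a n‖)) :
    (∃ g : ℂ → ℂ, ContinuousOn g (Metric.closedBall 0 1) ∧ ∀ z : ℂ, ‖z‖ < 1 → g z = f z) ∧
      ∃ B : ℝ, ∀ z : ℂ, ‖z‖ < 1 → ‖f z‖ ≤ B := by
  have hle : ∀ n (z : ℂ), ‖z‖ ≤ 1 → ‖a n * z ^ lam n‖ ≤ ‖a n‖ := by
    intro n z hz
    rw [norm_mul, norm_pow]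
    have h1 : ‖z‖ ^ lam n ≤ 1 := pow_le_one₀ (norm_nonneg _) hz
    have h2 := norm_nonneg (a n)
    nlinarith
  refine ⟨⟨fun z => ∑' n, a n * z ^ lam n, ?_, fun z hz => (hf.sum z hz).tsum_eq⟩,
    ∑' n, ‖a n‖, fun z hz => ?_⟩
  · refine continuousOn_tsum (u := fun n => ‖a n‖) (fun n => ?_) hA ?_
    · fun_prop
    · intro n z hz
      exact hle n z (by simpa using hz)
  · rw [← (hf.sum z hz).tsum_eq]
    exact tsum_of_norm_bounded hA.hasSum fun n => hle n z hz.le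

/-- **Main theorem.**
(A) Every function `f` analytic in the disc with Hadamard gaps (any `q > 1`) has radial limits,
finite or infinite, on a set of Hausdorff dimension `1` in every arc.
(B) If `∑ |a n| = ∞`, then `M r = ∑ |a n| r ^ lam n` tends to infinity as `r → 1-`, and for every
`γ < 1` in every arc `|f (r exp (iθ))| ≥ M r ^ γ` for all `r` near `1`, for all `θ` in a set of
Hausdorff dimension `1`; for every `σ < 1` the arc contains a compact set `K` with positive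
`σ`-dimensional Hausdorff measure on which this holds uniformly (`r > r₀`, `θ ∈ K`).
(C) `∑ |a n| < ∞` if and only if `f` is bounded; then `f` extends continuously to the closed disc.
(D) The analogue of (B) for series `∑ a k exp (lam k (-s + iθ))` with real frequencies
`lam (k+1) ≥ q lam k > 0`, converging absolutely for `s > 0`, with `∑ |a k| = ∞`. -/
theorem result :
    (∀ (q : ℝ) (lam : ℕ → ℕ) (a : ℕ → ℂ) (f : ℂ → ℂ), IsHadamard q lam a f →
      ∀ α β : ℝ, α < β → dimH {θ : ℝ | θ ∈ Ioo α β ∧ HasRadialLimit f θ} = 1) ∧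
    (∀ (q : ℝ) (lam : ℕ → ℕ) (a : ℕ → ℂ) (f : ℂ → ℂ), IsHadamard q lam a f →
      ¬ Summable (fun n => ‖a n‖) →
      Tendsto (majorant lam a) (𝓝[<] 1) atTop ∧ ∀ α β γ : ℝ, α < β → γ < 1 →
      dimH {θ : ℝ | θ ∈ Ioo α β ∧ ∀ᶠ r : ℝ in 𝓝[<] 1,
        majorant lam a r ^ γ ≤ ‖f (r * Complex.exp (θ * Complex.I))‖} = 1 ∧
      ∀ σ : ℝ, σ < 1 →
      ∃ K : Set ℝ, K ⊆ Ioo α β ∧ IsCompact K ∧ 0 < Measure.hausdorffMeasure σ K ∧
        ∃ r₀ : ℝ, r₀ < 1 ∧ ∀ r, r₀ < r → r < 1 → ∀ θ ∈ K,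
          majorant lam a r ^ γ ≤ ‖f (r * Complex.exp (θ * Complex.I))‖) ∧
    (∀ (q : ℝ) (lam : ℕ → ℕ) (a : ℕ → ℂ) (f : ℂ → ℂ), IsHadamard q lam a f →
      ((∃ B : ℝ, ∀ z : ℂ, ‖z‖ < 1 → ‖f z‖ ≤ B) ↔ Summable (fun n => ‖a n‖)) ∧
      (Summable (fun n => ‖a n‖) →
        ∃ g : ℂ → ℂ, ContinuousOn g (Metric.closedBall 0 1) ∧ ∀ z : ℂ, ‖z‖ < 1 → g z = f z)) ∧
    (∀ (q : ℝ) (lam : ℕ → ℝ) (a : ℕ → ℂ), 1 < q → (∀ k, 0 < lam k) →
      (∀ k, q * lam k ≤ lam (k + 1)) →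
      (∀ s : ℝ, 0 < s → Summable (fun k => ‖a k‖ * Real.exp (-(lam k * s)))) →
      ¬ Summable (fun k => ‖a k‖) →
      Tendsto (majorantD lam a) (𝓝[>] 0) atTop ∧ ∀ α β σ γ : ℝ, α < β → σ < 1 → γ < 1 →
      ∃ K : Set ℝ, K ⊆ Ioo α β ∧ IsCompact K ∧ 0 < Measure.hausdorffMeasure σ K ∧
        ∃ s₀ : ℝ, 0 < s₀ ∧ ∀ s, 0 < s → s < s₀ → ∀ θ ∈ K,
          majorantD lam a s ^ γ ≤ ‖∑' k, a k * Complex.exp (lam k * (-s + θ * Complex.I))‖) := by
  have hB : ∀ (q : ℝ) (lam : ℕ → ℕ) (a : ℕ → ℂ) (f : ℂ → ℂ), IsHadamard q lam a f →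
      ¬ Summable (fun n => ‖a n‖) → ∀ α β γ : ℝ, α < β → γ < 1 →
      dimH {θ : ℝ | θ ∈ Ioo α β ∧ ∀ᶠ r : ℝ in 𝓝[<] 1,
        majorant lam a r ^ γ ≤ ‖f (r * Complex.exp (θ * Complex.I))‖} = 1 := by
    intro q lam a f hf hA α β γ hαβ hγ
    apply dimH_eq_one
    intro σ hσ
    obtain ⟨K, hK1, -, hK3, r₀, hr₀, h2⟩ := (partB q lam a f hf hA).2 α β σ γ hαβ hσ hγ
    refine ⟨K, fun θ hθ => ⟨hK1 hθ, ?_⟩, hK3⟩
    filter_upwards [Ioo_mem_nhdsLT hr₀] with r hr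
    exact h2 r hr.1 hr.2 θ hθ
  refine ⟨?_, ?_, ?_, partC⟩
  · intro q lam a f hf α β hαβ
    by_cases hA : Summable (fun n => ‖a n‖)
    · have h1 : {θ : ℝ | θ ∈ Ioo α β ∧ HasRadialLimit f θ} = Ioo α β := by
        ext θ
        exact ⟨fun h => h.1, fun h => ⟨h, radial_of_summable q lam a f hf hA θ⟩⟩
      rw [h1, Real.dimH_of_nonempty_interior (by rw [interior_Ioo]; exact nonempty_Ioo.2 hαβ)]
      simp
    · have h1 := hB q lam a f hf hA α β (1 / 2) hαβ (by norm_num)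
      have hM := (partB q lam a f hf hA).1
      apply le_antisymm
      · have h2 : dimH {θ : ℝ | θ ∈ Ioo α β ∧ HasRadialLimit f θ} ≤ dimH (univ : Set ℝ) :=
          dimH_mono (subset_univ _)
        rw [Real.dimH_univ] at h2
        exact h2
      · rw [← h1]
        exact dimH_mono fun θ hθ => ⟨hθ.1, radial_of_tendsto f θ
          (tendsto_of_growth lam a f θ (1 / 2) (by norm_num) hM hθ.2)⟩
  · intro q lam a f hf hA
    exact ⟨(partB q lam a f hf hA).1, fun α β γ hαβ hγ => ⟨hB q lam a f hf hA α β γ hαβ hγ,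
      fun σ hσ => (partB q lam a f hf hA).2 α β σ γ hαβ hσ hγ⟩⟩
  · intro q lam a f hf
    refine ⟨⟨fun ⟨B, hBd⟩ => ?_, fun hA => (extends_of_summable q lam a f hf hA).2⟩,
      fun hA => (extends_of_summable q lam a f hf hA).1⟩
    by_contra hA
    have hM := (partB q lam a f hf hA).1
    obtain ⟨K, hK1, -, hK3, r₀, hr₀, h2⟩ :=
      (partB q lam a f hf hA).2 0 1 0 (1 / 2) (by norm_num) (by norm_num) (by norm_num)
    obtain ⟨θ, hθ⟩ : K.Nonempty := by
      by_contra hcon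
      rw [not_nonempty_iff_eq_empty] at hcon
      rw [hcon] at hK3
      simp at hK3
    have h3 : ∀ᶠ r : ℝ in 𝓝[<] 1,
        majorant lam a r ^ (1 / 2 : ℝ) ≤ ‖f (r * Complex.exp (θ * Complex.I))‖ := by
      filter_upwards [Ioo_mem_nhdsLT hr₀] with r hr
      exact h2 r hr.1 hr.2 θ hθ
    have h4 := tendsto_of_growth lam a f θ (1 / 2) (by norm_num) hM h3
    have h5 : ∀ᶠ r : ℝ in 𝓝[<] 1, r ∈ Set.Ioo (0 : ℝ) 1 := Ioo_mem_nhdsLT (by norm_num)
    obtain ⟨r, h6, h7⟩ := ((h4.eventually_ge_atTop (B + 1)).and h5).exists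
    have h8 := hBd ((r : ℂ) * Complex.exp (θ * Complex.I)) (by
      rw [norm_mul, Complex.norm_exp_ofReal_mul_I, mul_one, Complex.norm_real,
        Real.norm_eq_abs, abs_of_pos h7.1]
      exact h7.2)
    linarith

end Pool.Agent.Results.MP_bdd694_an.RadialDimension
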